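import Pool.Agent.W170.Z3.Stm

set_option autoImplicit false

open Polynomial Pool.Agent.H337R2 Pool.Agent.W170.Z3

namespace Pool.Agent.W337.Z3

/-- product of pairs of first two coefficients -/
def dm (p q : ℚ × ℚ) : ℚ × ℚ := (p.1 * q.1, p.1 * q.2 + p.2 * q.1)

def Is (f : PowerSeries ℚ) (p : ℚ × ℚ) : Prop :=
  PowerSeries.coeff 0 f = p.1 ∧ PowerSeries.coeff 1 f = p.2

lemma Is.mul {f g : PowerSeries ℚ} {p q : ℚ × ℚ} (hf : Is f p) (hg : Is g q) :
    Is (f * g) (dm p q) := by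
  obtain ⟨h1, h2⟩ := hf
  obtain ⟨h3, h4⟩ := hg
  refine ⟨?_, ?_⟩
  · rw [PowerSeries.coeff_mul]
    simp [dm, h1, h3]
  · rw [PowerSeries.coeff_mul]
    have : Finset.HasAntidiagonal.antidiagonal (1 : ℕ) = {(0, 1), (1, 0)} := rfl
    rw [this, Finset.sum_insert (by decide), Finset.sum_singleton]
    simp only [dm]
    rw [h1, h2, h3, h4]

lemma Is.one : Is 1 (1, 0) := by
  refine ⟨?_, ?_⟩
  · simp
  · simp [PowerSeries.coeff_one]

lemma Is.lin (u : ℚ) : Is (PowerSeries.X + PowerSeries.C u) (u, 1) := by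
  refine ⟨?_, ?_⟩
  · simp
  · simp

lemma Is.iv (u : ℚ) : Is (iv u) (1 / u, -(1 / u ^ 2)) := by
  refine ⟨?_, ?_⟩
  · simp [Pool.Agent.H337R2.iv]
  · simp [Pool.Agent.H337R2.iv, neg_div]

lemma Is.sq {f : PowerSeries ℚ} {p : ℚ × ℚ} (hf : Is f p) : Is (f ^ 2) (dm p p) := by
  rw [pow_two]
  exact hf.mul hf

def dpow (p : ℚ × ℚ) : ℕ → ℚ × ℚ
  | 0 => (1, 0)
  | n + 1 => dm (dpow p n) p

lemma Is.pow {f : PowerSeries ℚ} {p : ℚ × ℚ} (hf : Is f p) (n : ℕ) : Is (f ^ n) (dpow p n) := by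
  induction n with
  | zero => rw [pow_zero]; exact Is.one
  | succ n ih => rw [pow_succ]; exact ih.mul hf

def dprod (P : ℕ → ℚ × ℚ) : List ℕ → ℚ × ℚ
  | [] => (1, 0)
  | a :: l => dm (P a) (dprod P l)

lemma Is.list (F : ℕ → PowerSeries ℚ) (P : ℕ → ℚ × ℚ) (h : ∀ a, Is (F a) (P a)) (l : List ℕ) :
    Is (l.map F).prod (dprod P l) := by
  induction l with
  | nil => exact Is.one
  | cons a l ih =>
    rw [List.map_cons, List.prod_cons]
    exact (h a).mul ih

def lst (j : ℕ) : List ℕ := [5, 6, 7, 8, 9, 10, 11].filter (fun b => b ≠ j)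

/-- the first two coefficients of `ser j e` -/
def cs (j e : ℕ) : ℚ × ℚ :=
  dm (dm (dm (dprod (fun a => dm ((a : ℚ) - j, 1) ((a : ℚ) - j, 1)) [0, 1, 2, 3])
    (dprod (fun a => ((a : ℚ) - j, 1)) [4, 5]))
    (dprod (fun b => dm (1 / ((b : ℚ) - j), -(1 / ((b : ℚ) - j) ^ 2))
      (1 / ((b : ℚ) - j), -(1 / ((b : ℚ) - j) ^ 2))) (lst j)))
    (dpow (-(j : ℚ), 1) e)

lemma erase_eq (j : ℕ) : (Finset.Icc 5 11).erase j = (lst j).toFinset := by
  ext b
  simp only [Finset.mem_erase, Finset.mem_Icc, lst, List.mem_toFinset, List.mem_filter,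
    List.mem_cons, List.not_mem_nil, or_false, decide_eq_true_eq]
  constructor
  · rintro ⟨h1, h2, h3⟩
    exact ⟨by omega, h1⟩
  · rintro ⟨h1, h2⟩
    exact ⟨h2, by omega, by omega⟩

lemma lst_nodup (j : ℕ) : (lst j).Nodup := by
  unfold lst
  exact List.Nodup.filter _ (by decide)

lemma ser_is (j e : ℕ) : Is (ser j e) (cs j e) := by
  unfold ser cs
  refine Is.mul (Is.mul (Is.mul ?_ ?_) ?_) ?_
  · have h1 : Finset.range 4 = [0, 1, 2, 3].toFinset := by decide
    rw [h1, List.prod_toFinset _ (by decide)]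
    exact Is.list _ _ (fun a => (Is.lin _).sq) _
  · have h1 : (Finset.Icc 4 5 : Finset ℕ) = [4, 5].toFinset := by decide
    rw [h1, List.prod_toFinset _ (by decide)]
    exact Is.list _ _ (fun a => Is.lin _) _
  · rw [erase_eq, List.prod_toFinset _ (lst_nodup j)]
    exact Is.list _ _ (fun a => (Is.iv _).sq) _
  · exact (Is.lin _).pow e

def H (e m : ℕ) : ℚ := ((List.range m).map fun l : ℕ => 1 / ((l : ℚ) + 1) ^ e).sum

lemma hs_eq (e m : ℕ) : hs e m = H e m := by
  unfold hs H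
  rw [← List.sum_toFinset _ (List.nodup_range)]
  congr 1
  ext a
  simp

def cF (e : ℕ) : ℚ := -(([5, 6, 7, 8, 9, 10, 11] : List ℕ).map fun j =>
  2 * (cs j e).1 * H 3 (j - 4) + (cs j e).2 * H 2 (j - 4)).sum

def cR (e : ℕ) : ℚ := 2 * (([5, 6, 7, 8, 9, 10, 11] : List ℕ).map fun j => (cs j e).1).sum

lemma Fm_eq (e : ℕ) : Fm e = cF e := by
  unfold Fm cF
  have h1 : (Finset.Icc 5 11 : Finset ℕ) = [5, 6, 7, 8, 9, 10, 11].toFinset := by decide
  rw [h1, List.sum_toFinset _ (by decide)]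
  congr 3
  funext j
  rw [(ser_is j e).1, (ser_is j e).2, hs_eq, hs_eq]

lemma rm_eq (e : ℕ) : rm e = cR e := by
  unfold rm cR
  have h1 : (Finset.Icc 5 11 : Finset ℕ) = [5, 6, 7, 8, 9, 10, 11].toFinset := by decide
  rw [h1, List.sum_toFinset _ (by decide)]
  congr 3
  funext j
  rw [(ser_is j e).1]

lemma cF0 : cF 0 = -2103942046541 / 5292000 := by decide +kernel
lemma cF1 : cF 1 = 6452714469097 / 1764000 := by decide +kernel
lemma cF2 : cF 2 = -179387233505401 / 5292000 := by decide +kernel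
lemma cR0 : cR 0 = 992225 / 3 := by decide +kernel
lemma cR1 : cR 1 = -9129355 / 3 := by decide +kernel
lemma cR2 : cR 2 = 84599525 / 3 := by decide +kernel

/-- the explicit form -/
lemma form_eq (a b : ℚ) :
    (a * Fm 0 + b * rm 0) * (a * Fm 2 + b * rm 2) - (a * Fm 1 + b * rm 1) ^ 2 =
    (1 / 28576800000 : ℚ) * (2737374497385324698887 * a ^ 2 - 4554484051778542152000 * a * b +
      1894454430487920000000 * b ^ 2) := by
  rw [Fm_eq, Fm_eq, Fm_eq, rm_eq, rm_eq, rm_eq, cF0, cF1, cF2, cR0, cR1, cR2]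
  ring

theorem H5 : StH5 := ⟨1 / 28576800000, by norm_num, form_eq⟩

/-- the integral form has no nontrivial zero modulo `p` -/
lemma int_form {p : ℕ} [hp : Fact p.Prime] (hp0 : 10 ^ 30 ≤ p) (hmod : p % 284 = 143) (m n : ℤ)
    (hmn : ¬ ((p : ℤ) ∣ m ∧ (p : ℤ) ∣ n)) :
    ¬ (p : ℤ) ∣ 2737374497385324698887 * m ^ 2 - 4554484051778542152000 * m * n +
      1894454430487920000000 * n ^ 2 := by
  intro hdvd
  have h71 : Fact (Nat.Prime 71) := ⟨by norm_num⟩
  have hsq : ¬ IsSquare ((71 : ℕ) : ZMod p) := by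
    rw [ZMod.exists_sq_eq_prime_iff_of_mod_four_eq_three (p := p) (q := 71) (by omega) (by norm_num)
      (by omega), not_not]
    have h1 : ((p : ℕ) : ZMod 71) = 1 := by
      have h2 : ((p : ℕ) : ZMod 71) = ((1 : ℕ) : ZMod 71) := by
        rw [ZMod.natCast_eq_natCast_iff]
        unfold Nat.ModEq
        omega
      simpa using h2
    rw [h1]
    exact IsSquare.one
  have hunit : ∀ c : ℕ, 0 < c → c < 10 ^ 30 → ((c : ℕ) : ZMod p) ≠ 0 := by
    intro c hc0 hc h0
    rw [ZMod.natCast_eq_zero_iff] at h0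
    have := Nat.le_of_dvd hc0 h0
    omega
  have hz := (ZMod.intCast_zmod_eq_zero_iff_dvd _ p).2 hdvd
  push_cast at hz
  set x : ZMod p := (m : ZMod p) with hx
  set y : ZMod p := (n : ZMod p) with hy
  have hkey : (2 * 2737374497385324698887 * x - 4554484051778542152000 * y) ^ 2 =
      71 * (2592000 * y) ^ 2 := by
    linear_combination (4 * 2737374497385324698887 : ZMod p) * hz
  have hy0 : y = 0 := by
    by_contra hy0
    apply hsq
    have hD : (2592000 : ZMod p) * y ≠ 0 := by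
      apply mul_ne_zero _ hy0
      have := hunit 2592000 (by norm_num) (by norm_num)
      exact_mod_cast this
    refine ⟨(2 * 2737374497385324698887 * x - 4554484051778542152000 * y) / (2592000 * y), ?_⟩
    rw [div_mul_div_comm, eq_div_iff (mul_ne_zero hD hD)]
    push_cast
    linear_combination -hkey
  have hx0 : x = 0 := by
    rw [hy0] at hkey
    have h1 : (2 * 2737374497385324698887 * x : ZMod p) ^ 2 = 0 := by
      linear_combination hkey
    have h2 := pow_eq_zero_iff (two_ne_zero) |>.1 h1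
    have h3 : ((2 * 2737374497385324698887 : ℕ) : ZMod p) ≠ 0 := hunit _ (by norm_num) (by norm_num)
    rcases mul_eq_zero.1 h2 with h4 | h4
    · refine absurd ?_ h3
      have e5 : ((2 * 2737374497385324698887 : ℕ) : ZMod p) = 2 * 2737374497385324698887 := by
        rw [Nat.cast_mul]
        rfl
      rw [e5]
      exact h4
    · exact h4
  apply hmn
  exact ⟨(ZMod.intCast_zmod_eq_zero_iff_dvd _ p).1 hx0, (ZMod.intCast_zmod_eq_zero_iff_dvd _ p).1 hy0⟩

lemma den_not_dvd {p : ℕ} [hp : Fact p.Prime] {a : ℚ} (h : padicNorm p a ≤ 1) :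
    ¬ (p : ℤ) ∣ (a.den : ℤ) := by
  intro hd
  have hpp : (p : ℤ) ∣ a.num → False := by
    intro hn
    have h1 : p ∣ a.num.natAbs := Int.natCast_dvd.1 hn
    have h2 : p ∣ a.den := by exact_mod_cast hd
    have h3 := Nat.dvd_gcd h1 h2
    have h4 : a.num.natAbs.gcd a.den = 1 := a.reduced
    rw [h4] at h3
    exact hp.out.one_lt.ne' (Nat.dvd_one.1 h3)
  have hnum : padicNorm p (a.num : ℚ) = 1 := padicNorm.int_eq_one_iff _ |>.2 hpp
  have hden : padicNorm p ((a.den : ℤ) : ℚ) < 1 := (padicNorm.int_lt_one_iff _).2 hd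
  have hden0 : (a.den : ℚ) ≠ 0 := by exact_mod_cast a.den_nz
  have h5 : (a.num : ℚ) = a * ((a.den : ℤ) : ℚ) := by
    rw [Int.cast_natCast]
    exact (Rat.mul_den_eq_num a).symm
  rw [h5, padicNorm.mul] at hnum
  have h6 : padicNorm p a * padicNorm p ((a.den : ℤ) : ℚ) < 1 := by
    calc padicNorm p a * padicNorm p ((a.den : ℤ) : ℚ) ≤ 1 * padicNorm p ((a.den : ℤ) : ℚ) :=
          mul_le_mul_of_nonneg_right h (padicNorm.nonneg _)
      _ < 1 := by rw [one_mul]; exact hden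
  exact h6.ne hnum

theorem H5' : StH5' := by
  refine ⟨10 ^ 30, fun p hp0 hpp hmod a b ha hb hab => ?_⟩
  have hp : Fact p.Prime := ⟨hpp⟩
  rw [form_eq, padicNorm.mul]
  have hda := den_not_dvd ha
  have hdb := den_not_dvd hb
  have hda0 : (a.den : ℚ) ≠ 0 := by exact_mod_cast a.den_nz
  have hdb0 : (b.den : ℚ) ≠ 0 := by exact_mod_cast b.den_nz
  have hpz : Prime (p : ℤ) := Nat.prime_iff_prime_int.1 hpp
  -- the constant is a unit
  have hk : padicNorm p (1 / 28576800000 : ℚ) = 1 := by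
    have h1 : padicNorm p ((28576800000 : ℤ) : ℚ) = 1 := by
      rw [padicNorm.int_eq_one_iff]
      intro hd
      have := Int.le_of_dvd (by norm_num) hd
      have h2 : ((10 ^ 30 : ℕ) : ℤ) ≤ p := by exact_mod_cast hp0
      norm_num at h2
      omega
    rw [padicNorm.div, padicNorm.one]
    have h3 : ((28576800000 : ℤ) : ℚ) = 28576800000 := by norm_num
    rw [h3] at h1
    rw [h1, div_one]
  rw [hk, one_mul]
  -- integers
  set d : ℤ := (a.den : ℤ) * b.den with hd
  set m : ℤ := a.num * b.den with hm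
  set n : ℤ := b.num * a.den with hn
  have hdp : padicNorm p (d : ℚ) = 1 := by
    rw [padicNorm.int_eq_one_iff]
    intro h
    rcases hpz.dvd_or_dvd h with h1 | h1
    · exact hda h1
    · exact hdb h1
  have ham : a * d = m := by
    rw [hd, hm]
    push_cast
    rw [← mul_assoc, Rat.mul_den_eq_num]
  have hbn : b * d = n := by
    rw [hd, hn]
    push_cast
    rw [mul_comm (a.den : ℚ), ← mul_assoc, Rat.mul_den_eq_num]
  have hmn : ¬ ((p : ℤ) ∣ m ∧ (p : ℤ) ∣ n) := by
    rintro ⟨h1, h2⟩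
    have h3 : padicNorm p (m : ℚ) < 1 := (padicNorm.int_lt_one_iff _).2 h1
    have h4 : padicNorm p (n : ℚ) < 1 := (padicNorm.int_lt_one_iff _).2 h2
    rw [← ham, padicNorm.mul, hdp, mul_one] at h3
    rw [← hbn, padicNorm.mul, hdp, mul_one] at h4
    rcases hab with h5 | h5
    · exact h3.ne h5
    · exact h4.ne h5
  have hI := int_form hp0 hmod m n hmn
  rw [← padicNorm.int_eq_one_iff] at hI
  have e : ((2737374497385324698887 * m ^ 2 - 4554484051778542152000 * m * n +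
      1894454430487920000000 * n ^ 2 : ℤ) : ℚ) =
      (2737374497385324698887 * a ^ 2 - 4554484051778542152000 * a * b +
      1894454430487920000000 * b ^ 2) * ((d : ℚ) * d) := by
    push_cast
    rw [← ham, ← hbn]
    ring
  rw [e, padicNorm.mul, padicNorm.mul, hdp, mul_one, mul_one] at hI
  exact hI

end Pool.Agent.W337.Z3
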